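import Pool.Agent.Helper9.UP.StN

set_option autoImplicit false

/-! Project UP, module GE (written by helper13). -/

noncomputable section

namespace Pool.Agent.Helper13.UP

open Pool.Agent.Helper9.UP
open Finset Polynomial NumberField Module

theorem root_bound_GE {Λ : ℝ} {f : ℤ[X]} (hf : Adm Λ f) (z : ℂ) (hz : aeval z f = 0) :
    |((f.leadingCoeff : ℤ) : ℝ)| * ‖z‖ ≤ 2 * Real.exp Λ := by
  have hf0 : f ≠ 0 := hf.irr.ne_zero
  have hinj : Function.Injective (Int.castRingHom ℂ) := Int.cast_injective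
  set p : ℂ[X] := f.map (Int.castRingHom ℂ) with hp
  have hp0 : p ≠ 0 := (Polynomial.map_ne_zero_iff hinj).mpr hf0
  have hroot : p.IsRoot z := by
    rw [IsRoot.def, hp, eval_map]
    rw [aeval_def] at hz
    exact hz
  have h1 := hroot.norm_lt_cauchyBound hp0
  have hlc : p.leadingCoeff = (f.leadingCoeff : ℂ) := by
    rw [hp, leadingCoeff_map_of_injective hinj]
    rfl
  have hlc0 : (0 : ℝ) < |((f.leadingCoeff : ℤ) : ℝ)| := by
    rw [abs_pos]
    exact_mod_cast leadingCoeff_ne_zero.mpr hf0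
  have hnlc : (‖p.leadingCoeff‖₊ : ℝ) = |((f.leadingCoeff : ℤ) : ℝ)| := by
    rw [hlc, coe_nnnorm, Complex.norm_intCast]
  have hsup : (((range p.natDegree).sup fun k => ‖p.coeff k‖₊ : NNReal) : ℝ) ≤ Real.exp Λ := by
    have h2 : ((range p.natDegree).sup fun k => ‖p.coeff k‖₊)
        ≤ (⟨Real.exp Λ, (Real.exp_pos _).le⟩ : NNReal) := by
      apply Finset.sup_le
      intro k _
      rw [← NNReal.coe_le_coe]
      simp only [coe_nnnorm]
      rw [hp, coeff_map]
      have h3 : ‖(Int.castRingHom ℂ) (f.coeff k)‖ = |((f.coeff k : ℤ) : ℝ)| :=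
        Complex.norm_intCast _
      rw [h3]
      exact hf.coe k
    exact_mod_cast h2
  have h4 : ‖z‖ < Real.exp Λ / |((f.leadingCoeff : ℤ) : ℝ)| + 1 := by
    have h5 : (‖z‖₊ : ℝ) < ((cauchyBound p : NNReal) : ℝ) := by exact_mod_cast h1
    rw [cauchyBound, NNReal.coe_add, NNReal.coe_div, hnlc] at h5
    rw [coe_nnnorm] at h5
    refine h5.trans_le ?_
    simp only [NNReal.coe_one]
    gcongr
  have h6 : |((f.leadingCoeff : ℤ) : ℝ)| ≤ Real.exp Λ := hf.coe f.natDegree
  calc |((f.leadingCoeff : ℤ) : ℝ)| * ‖z‖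
      ≤ |((f.leadingCoeff : ℤ) : ℝ)| * (Real.exp Λ / |((f.leadingCoeff : ℤ) : ℝ)| + 1) :=
        mul_le_mul_of_nonneg_left h4.le hlc0.le
    _ = Real.exp Λ + |((f.leadingCoeff : ℤ) : ℝ)| := by field_simp
    _ ≤ 2 * Real.exp Λ := by linarith

theorem hGE : StGE := by
  refine ⟨1, ?_⟩
  intro Λ hΛ f hf K _ _ θ hθ hdg
  classical
  have hf0 : f ≠ 0 := hf.irr.ne_zero
  have hlc0 : f.leadingCoeff ≠ 0 := leadingCoeff_ne_zero.mpr hf0
  have hint : IsIntegral ℤ (f.leadingCoeff • θ) := isIntegral_leadingCoeff_smul f θ hθ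
  set α : 𝓞 K := ⟨f.leadingCoeff • θ, hint⟩ with hα
  have hαK : (α : K) = (f.leadingCoeff : K) * θ := by
    show f.leadingCoeff • θ = _
    rw [zsmul_eq_mul]
  refine ⟨α, ?_, ?_⟩
  · -- linear independence
    have hprim : f.IsPrimitive := hf.irr.isPrimitive (by have := hf.deg; omega)
    have hirr : Irreducible (f.map (Int.castRingHom ℚ)) :=
      (IsPrimitive.Int.irreducible_iff_irreducible_map_cast hprim).mp hf.irr
    have haeval : aeval θ (f.map (Int.castRingHom ℚ)) = 0 := by
      rw [← hθ]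
      exact aeval_map_algebraMap (A := ℚ) θ f
    have hmin := minpoly.eq_of_irreducible hirr haeval
    have hdeg : (minpoly ℚ θ).natDegree = dg K := by
      rw [← hmin, natDegree_mul_C, natDegree_map_eq_of_injective Int.cast_injective, hdg]
      exact inv_ne_zero (leadingCoeff_ne_zero.mpr hirr.ne_zero)
    have hpow : LinearIndependent ℚ (fun i : Fin (dg K) => θ ^ (i : ℕ)) := by
      rw [← hdeg]
      exact linearIndependent_pow θ
    have hlcQ : (f.leadingCoeff : ℚ) ≠ 0 := by exact_mod_cast hlc0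
    have hpow2 : LinearIndependent ℚ (fun i : Fin (dg K) => ((α : K)) ^ (i : ℕ)) := by
      have h1 := hpow.units_smul (fun i : Fin (dg K) => (Units.mk0 (f.leadingCoeff : ℚ) hlcQ) ^ (i : ℕ))
      convert h1 using 1
      funext i
      rw [hαK]
      simp only [Pi.smul_apply', Units.smul_def, Units.val_pow_eq_pow_val, Units.val_mk0,
        Algebra.smul_def, map_pow, map_intCast, mul_pow]
    have hpow3 : LinearIndependent ℤ (fun i : Fin (dg K) => ((α : K)) ^ (i : ℕ)) :=
      hpow2.restrict_scalars (by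
        intro a b hab
        simpa using hab)
    refine LinearIndependent.of_comp ((Algebra.linearMap (𝓞 K) K).restrictScalars ℤ) ?_
    convert hpow3 using 1
    funext i
    simp
  · intro φ i hi
    have hφ : ‖φ (α : K)‖ ≤ 2 * Real.exp Λ := by
      have h1 : aeval (φ θ) f = 0 := by
        have h2 := congrArg φ hθ
        rw [map_zero, aeval_def, hom_eval₂] at h2
        rw [aeval_def]
        convert h2 using 2
        exact RingHom.ext_int _ _
      have h3 := root_bound_GE hf (φ θ) h1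
      rw [hαK, map_mul, norm_mul, map_intCast, Complex.norm_intCast]
      exact h3
    have hd : (dg K : ℝ) ≤ Λ := by rw [hdg]; exact hf.degLe
    have hi' : (i : ℝ) ≤ Λ := by
      have : (i : ℝ) ≤ (dg K : ℝ) := by exact_mod_cast hi.le
      linarith
    have h2 : (2 : ℝ) ≤ Real.exp 1 := by
      have := Real.add_one_le_exp (1 : ℝ)
      linarith
    have h3 : ‖φ (α : K)‖ ≤ Real.exp (1 + Λ) := by
      rw [Real.exp_add]
      refine hφ.trans ?_
      gcongr
    have h4 : ‖φ (α : K)‖ ^ i ≤ Real.exp (Λ * (1 + Λ)) := by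
      calc ‖φ (α : K)‖ ^ i ≤ (Real.exp (1 + Λ)) ^ i := by gcongr
        _ = Real.exp (i * (1 + Λ)) := by rw [← Real.exp_nat_mul]
        _ ≤ Real.exp (Λ * (1 + Λ)) := by
            apply Real.exp_le_exp.mpr
            apply mul_le_mul_of_nonneg_right hi'
            linarith
    have h5 : Λ ≤ Real.exp Λ := by
      have := Real.add_one_le_exp Λ
      linarith
    calc (dg K : ℝ) * ‖φ (α : K)‖ ^ i ≤ Real.exp Λ * Real.exp (Λ * (1 + Λ)) := by
          apply mul_le_mul (hd.trans h5) h4 (by positivity) (Real.exp_pos _).le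
      _ = Real.exp (Λ + Λ * (1 + Λ)) := by rw [← Real.exp_add]
      _ ≤ Real.exp (3 * Λ ^ 2) := by
          apply Real.exp_le_exp.mpr
          nlinarith

end Pool.Agent.Helper13.UP
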