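import Pool.Agent.Helper9.UP.StC

set_option autoImplicit false

/-! Project UP, module RM (written by helper13). -/

noncomputable section

namespace Pool.Agent.Helper13.UP

open Pool.Agent.Helper9.UP
open Finset Polynomial
open Pool.Agent.Helper9.TW (gm)

theorem abel_RM (δ u : ℕ → ℝ) (A B : ℕ) (h : A ≤ B) :
    ∑ n ∈ Ico A B, (δ (n + 1) - δ n) * u (n + 1)
      = δ B * u B - δ A * u A + ∑ n ∈ Ico A B, δ n * (u n - u (n + 1)) := by
  induction B, h using Nat.le_induction with
  | base => simp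
  | succ B h ih =>
    rw [Finset.sum_Ico_succ_top h, Finset.sum_Ico_succ_top h, ih]
    ring

theorem term_RM (A n : ℕ) (hA : 2 ≤ A) (hn : A ≤ n) :
    (Real.log ((n : ℝ) + 1) - Real.log n) / Real.log ((n : ℝ) + 1)
        ≤ Real.log (Real.log ((n : ℝ) + 1)) - Real.log (Real.log n) ∧
    (1 - 1 / (A : ℝ)) * (Real.log (Real.log ((n : ℝ) + 1)) - Real.log (Real.log n))
        ≤ (Real.log ((n : ℝ) + 1) - Real.log n) / Real.log ((n : ℝ) + 1) ∧
    0 ≤ Real.log ((n : ℝ) + 1) - Real.log n := by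
  have hA2 : (2 : ℝ) ≤ A := by exact_mod_cast hA
  have hnA : (A : ℝ) ≤ n := by exact_mod_cast hn
  have hn2 : (2 : ℝ) ≤ n := hA2.trans hnA
  set x := Real.log n with hx
  set y := Real.log ((n : ℝ) + 1) with hy
  have hx0 : 0 < x := Real.log_pos (by linarith)
  have hxy : x ≤ y := Real.log_le_log (by linarith) (by linarith)
  have hy0 : 0 < y := hx0.trans_le hxy
  have hd : y - x ≤ 1 / A := by
    have h1 : y - x = Real.log (1 + 1 / (n : ℝ)) := by
      rw [hy, hx, ← Real.log_div (by positivity) (by positivity)]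
      congr 1
      field_simp
    rw [h1]
    have h2 := Real.log_le_sub_one_of_pos (show (0 : ℝ) < 1 + 1 / n by positivity)
    have h3 : 1 / (n : ℝ) ≤ 1 / A := one_div_le_one_div_of_le (by linarith) hnA
    linarith
  have hlogA : 1 - 1 / (A : ℝ) ≤ x := by
    have h1 := Real.one_sub_inv_le_log_of_pos (show (0 : ℝ) < A by linarith)
    rw [one_div]
    exact h1.trans (Real.log_le_log (by linarith) hnA)
  refine ⟨?_, ?_, by linarith⟩
  · rw [← Real.log_div hy0.ne' hx0.ne']
    have h1 := Real.one_sub_inv_le_log_of_pos (show 0 < y / x by positivity)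
    rw [inv_div] at h1
    have h2 : (y - x) / y = 1 - x / y := by field_simp
    rw [h2]
    exact h1
  · rw [← Real.log_div hy0.ne' hx0.ne']
    have h1 := Real.log_le_sub_one_of_pos (show 0 < y / x by positivity)
    have h2 : y / x - 1 = (y - x) / x := by field_simp
    rw [h2] at h1
    have hc : 0 ≤ 1 - 1 / (A : ℝ) := by
      have : 1 / (A : ℝ) ≤ 1 := by rw [div_le_one (by linarith)]; linarith
      linarith
    refine (mul_le_mul_of_nonneg_left h1 hc).trans ?_
    rw [mul_div_assoc', div_le_div_iff₀ hx0 hy0]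
    -- (1 - 1/A) (y - x) y ≤ (y - x) x
    have h3 : (1 - 1 / (A : ℝ)) * y ≤ x := by
      have h4 : (1 - 1 / (A : ℝ)) * y = (1 - 1 / (A : ℝ)) * (y - x) + (1 - 1 / (A : ℝ)) * x := by ring
      have h5 : (1 - 1 / (A : ℝ)) * (y - x) ≤ x * (1 / A) :=
        mul_le_mul hlogA hd (by linarith) hx0.le
      rw [h4]
      nlinarith
    have h6 : 0 ≤ y - x := by linarith
    calc (1 - 1 / (A : ℝ)) * (y - x) * y = (y - x) * ((1 - 1 / (A : ℝ)) * y) := by ring
      _ ≤ (y - x) * x := mul_le_mul_of_nonneg_left h3 h6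

theorem main_RM (T : ℕ → ℝ) (A B : ℕ) (hA : 2 ≤ A) (hAB : A ≤ B) (ε₁ : ℝ) (hε : 0 ≤ ε₁)
    (hT : ∀ n : ℕ, A ≤ n → n ≤ B → |T n - Real.log n| ≤ ε₁ * Real.log n) :
    |∑ n ∈ Ico A B, (T (n + 1) - T n) / Real.log ((n : ℝ) + 1)
      - (Real.log (Real.log B) - Real.log (Real.log A))|
      ≤ ε₁ * (2 + (Real.log (Real.log B) - Real.log (Real.log A)))
        + (1 / (A : ℝ)) * (Real.log (Real.log B) - Real.log (Real.log A)) := by
  set Λ := Real.log (Real.log B) - Real.log (Real.log A) with hΛ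
  set M := ∑ n ∈ Ico A B, (Real.log ((n : ℝ) + 1) - Real.log n) / Real.log ((n : ℝ) + 1) with hM
  have htel : ∑ n ∈ Ico A B, (Real.log (Real.log ((n : ℝ) + 1)) - Real.log (Real.log n)) = Λ := by
    have h1 := Finset.sum_Ico_sub (fun n : ℕ => Real.log (Real.log (n : ℝ))) hAB
    rw [hΛ, ← h1]
    refine Finset.sum_congr rfl fun n _ => ?_
    push_cast
    rfl
  have hM1 : M ≤ Λ := by
    rw [← htel]
    refine Finset.sum_le_sum fun n hn => ?_
    exact (term_RM A n hA (Finset.mem_Ico.mp hn).1).1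
  have hM2 : (1 - 1 / (A : ℝ)) * Λ ≤ M := by
    rw [← htel, Finset.mul_sum]
    refine Finset.sum_le_sum fun n hn => ?_
    exact (term_RM A n hA (Finset.mem_Ico.mp hn).1).2.1
  set δ : ℕ → ℝ := fun n => T n - Real.log n with hδ
  set u : ℕ → ℝ := fun n => 1 / Real.log n with hu
  have hpos : ∀ n : ℕ, A ≤ n → 0 < Real.log (n : ℝ) := by
    intro n hn
    apply Real.log_pos
    have : (2 : ℝ) ≤ n := by exact_mod_cast hA.trans hn
    linarith
  have hdiff : ∑ n ∈ Ico A B, (T (n + 1) - T n) / Real.log ((n : ℝ) + 1) - M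
      = ∑ n ∈ Ico A B, (δ (n + 1) - δ n) * u (n + 1) := by
    rw [hM, ← Finset.sum_sub_distrib]
    refine Finset.sum_congr rfl fun n _ => ?_
    simp only [hδ, hu]
    push_cast
    ring
  have hb : |∑ n ∈ Ico A B, (T (n + 1) - T n) / Real.log ((n : ℝ) + 1) - M| ≤ ε₁ * (2 + Λ) := by
    rw [hdiff, abel_RM δ u A B hAB]
    have e1 : |δ B * u B| ≤ ε₁ := by
      rw [abs_mul]
      have h1 := hT B hAB le_rfl
      have h2 : |u B| = 1 / Real.log B := abs_of_pos (by simp only [hu]; exact one_div_pos.mpr (hpos B hAB))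
      rw [h2, mul_one_div, div_le_iff₀ (hpos B hAB)]
      exact h1
    have e2 : |δ A * u A| ≤ ε₁ := by
      rw [abs_mul]
      have h1 := hT A le_rfl hAB
      have h2 : |u A| = 1 / Real.log A := abs_of_pos (by simp only [hu]; exact one_div_pos.mpr (hpos A le_rfl))
      rw [h2, mul_one_div, div_le_iff₀ (hpos A le_rfl)]
      exact h1
    have e3 : |∑ n ∈ Ico A B, δ n * (u n - u (n + 1))| ≤ ε₁ * Λ := by
      refine (Finset.abs_sum_le_sum_abs _ _).trans ?_
      rw [← htel, Finset.mul_sum]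
      refine Finset.sum_le_sum fun n hn => ?_
      have hn' := Finset.mem_Ico.mp hn
      have h1 := hT n hn'.1 hn'.2.le
      have hp := hpos n hn'.1
      have hp1 : 0 < Real.log ((n : ℝ) + 1) := by
        have := hpos (n + 1) (by omega)
        push_cast at this
        exact this
      obtain ⟨t1, -, t3⟩ := term_RM A n hA hn'.1
      have h2 : u n - u (n + 1)
          = (Real.log ((n : ℝ) + 1) - Real.log n) / (Real.log n * Real.log ((n : ℝ) + 1)) := by
        simp only [hu]
        push_cast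
        field_simp
      rw [abs_mul, h2, abs_of_nonneg (div_nonneg t3 (by positivity))]
      calc |δ n| * ((Real.log ((n : ℝ) + 1) - Real.log n) / (Real.log n * Real.log ((n : ℝ) + 1)))
          ≤ (ε₁ * Real.log n) * ((Real.log ((n : ℝ) + 1) - Real.log n)
              / (Real.log n * Real.log ((n : ℝ) + 1))) :=
            mul_le_mul_of_nonneg_right h1 (div_nonneg t3 (by positivity))
        _ = ε₁ * ((Real.log ((n : ℝ) + 1) - Real.log n) / Real.log ((n : ℝ) + 1)) := by
            field_simp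
        _ ≤ ε₁ * (Real.log (Real.log ((n : ℝ) + 1)) - Real.log (Real.log n)) :=
            mul_le_mul_of_nonneg_left t1 hε
    calc |δ B * u B - δ A * u A + ∑ n ∈ Ico A B, δ n * (u n - u (n + 1))|
        ≤ |δ B * u B - δ A * u A| + |∑ n ∈ Ico A B, δ n * (u n - u (n + 1))| := abs_add_le _ _
      _ ≤ (|δ B * u B| + |δ A * u A|) + |∑ n ∈ Ico A B, δ n * (u n - u (n + 1))| := by
          gcongr
          exact abs_sub _ _
      _ ≤ (ε₁ + ε₁) + ε₁ * Λ := by gcongr
      _ = ε₁ * (2 + Λ) := by ring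
  have h1 : ∑ n ∈ Ico A B, (T (n + 1) - T n) / Real.log ((n : ℝ) + 1) - Λ
      = (∑ n ∈ Ico A B, (T (n + 1) - T n) / Real.log ((n : ℝ) + 1) - M) + (M - Λ) := by ring
  rw [h1]
  refine (abs_add_le _ _).trans (add_le_add hb ?_)
  rw [abs_sub_comm, abs_of_nonneg (by linarith)]
  linarith

theorem loglog_RM (x : ℝ) (hx : 4 ≤ x) :
    Real.log (Real.log x) - Real.log (Real.log (x - 1)) ≤ 1 / (x - 1) := by
  have h3 : (1 : ℝ) ≤ Real.log (x - 1) := by
    rw [Real.le_log_iff_exp_le (by linarith)]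
    have := Real.exp_one_lt_d9
    linarith
  have hx1 : 0 < Real.log x := Real.log_pos (by linarith)
  rw [← Real.log_div hx1.ne' (by linarith)]
  have h1 := Real.log_le_sub_one_of_pos (show 0 < Real.log x / Real.log (x - 1) by positivity)
  have h2 : Real.log x - Real.log (x - 1) ≤ 1 / (x - 1) := by
    rw [← Real.log_div (by linarith) (by linarith)]
    have h4 := Real.log_le_sub_one_of_pos (show 0 < x / (x - 1) by
      apply div_pos <;> linarith)
    have h5 : x / (x - 1) - 1 = 1 / (x - 1) := by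
      have : x - 1 ≠ 0 := by linarith
      field_simp
      ring
    linarith
  have h6 : Real.log x / Real.log (x - 1) - 1 = (Real.log x - Real.log (x - 1)) / Real.log (x - 1) := by
    have : Real.log (x - 1) ≠ 0 := by linarith
    field_simp
  rw [h6] at h1
  refine h1.trans ?_
  have h7 : 0 ≤ 1 / (x - 1) := by
    apply one_div_nonneg.mpr; linarith
  calc (Real.log x - Real.log (x - 1)) / Real.log (x - 1)
      ≤ (1 / (x - 1)) / Real.log (x - 1) := by gcongr
    _ ≤ (1 / (x - 1)) / 1 := by gcongr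
    _ = 1 / (x - 1) := by ring

theorem Sf_succ_RM (f : ℤ[X]) (n : ℕ) :
    Sf f (n + 1) - Sf f n = if (n + 1).Prime then gf f (n + 1) * Real.log ((n : ℝ) + 1) else 0 := by
  simp only [Sf]
  rw [Finset.range_add_one (n := n + 1), Finset.filter_insert]
  split_ifs with h
  · rw [Finset.sum_insert (by simp)]
    push_cast
    ring
  · ring

theorem gf_RM (f : ℤ[X]) (p : ℕ) : 0 ≤ gf f p ∧ gf f p ≤ 1 := by
  rw [gf]
  split_ifs with h
  · exact ⟨le_refl _, zero_le_one⟩
  · refine ⟨by positivity, ?_⟩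
    apply div_le_one_of_le₀ _ (by positivity)
    have : rho f p ≤ p := by
      rw [rho]
      exact (Finset.card_filter_le _ _).trans (by simp)
    exact_mod_cast this

theorem hRM : StRM := by
  intro ω ε j0 Nm hω hε hj0
  set R : ℝ := max 4 (1 + 6 / ε) with hR
  have hR4 : 4 ≤ R := le_max_left _ _
  have hRe : 1 + 6 / ε ≤ R := le_max_right _ _
  have hj0' : (1 : ℝ) ≤ j0 := by exact_mod_cast hj0
  have hjω : 0 < (j0 : ℝ) * ω := by positivity
  refine ⟨ε / 8, by positivity, max 2 ⌈R ^ (1 / ((j0 : ℝ) * ω))⌉₊, ?_⟩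
  intro f N hN hS
  have hN2 : 2 ≤ N := (le_max_left _ _).trans hN
  have hN2' : (2 : ℝ) ≤ N := by exact_mod_cast hN2
  have hNR : R ^ (1 / ((j0 : ℝ) * ω)) ≤ N :=
    (Nat.le_ceil _).trans (by exact_mod_cast (le_max_right _ _).trans hN)
  have hNR' : R ≤ (N : ℝ) ^ ((j0 : ℝ) * ω) := by
    have h1 := Real.rpow_le_rpow (by positivity) hNR hjω.le
    rwa [← Real.rpow_mul (by linarith), one_div_mul_cancel hjω.ne', Real.rpow_one] at h1
  refine ⟨hN2', gf_RM f, ?_⟩
  intro i hi hiN
  have hi1 : (j0 : ℝ) ≤ i := by exact_mod_cast hi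
  have hiN' : (i : ℝ) ≤ Nm := by exact_mod_cast hiN
  have hi0 : (1 : ℝ) ≤ i := hj0'.trans hi1
  set a : ℝ := (N : ℝ) ^ ((i : ℝ) * ω) with ha
  set b : ℝ := (N : ℝ) ^ (((i : ℝ) + 1) * ω) with hb
  have haR : R ≤ a := hNR'.trans
    (Real.rpow_le_rpow_of_exponent_le (by linarith) (mul_le_mul_of_nonneg_right hi1 hω.le))
  have hab : a ≤ b := Real.rpow_le_rpow_of_exponent_le (by linarith)
    (mul_le_mul_of_nonneg_right (by linarith) hω.le)
  have ha4 : 4 ≤ a := hR4.trans haR
  have hlN : 0 < Real.log N := Real.log_pos (by linarith)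
  have hla : Real.log a = (i : ℝ) * ω * Real.log N := Real.log_rpow (by linarith) _
  have hlb : Real.log b = ((i : ℝ) + 1) * ω * Real.log N := Real.log_rpow (by linarith) _
  obtain ⟨A, hA⟩ : ∃ A, ⌈a⌉₊ = A + 1 := Nat.exists_eq_succ_of_ne_zero
    (Nat.pos_iff_ne_zero.mp (Nat.ceil_pos.mpr (by linarith)))
  obtain ⟨B, hB⟩ : ∃ B, ⌈b⌉₊ = B + 1 := Nat.exists_eq_succ_of_ne_zero
    (Nat.pos_iff_ne_zero.mp (Nat.ceil_pos.mpr (by linarith)))
  have hA1 : a - 1 ≤ A := by
    have := Nat.le_ceil a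
    rw [hA] at this
    push_cast at this
    linarith
  have hA2 : (A : ℝ) < a := by
    have := Nat.ceil_lt_add_one (show (0 : ℝ) ≤ a by linarith)
    rw [hA] at this
    push_cast at this
    linarith
  have hB1 : b - 1 ≤ B := by
    have := Nat.le_ceil b
    rw [hB] at this
    push_cast at this
    linarith
  have hB2 : (B : ℝ) < b := by
    have := Nat.ceil_lt_add_one (show (0 : ℝ) ≤ b by linarith)
    rw [hB] at this
    push_cast at this
    linarith
  have hAB : A ≤ B := by
    have := Nat.ceil_le_ceil hab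
    omega
  have hA2n : 2 ≤ A := by
    have : (2 : ℝ) ≤ A := by linarith
    exact_mod_cast this
  -- the box
  have hbox : ∑ p ∈ bx (N : ℝ) ω i, gf f p
      = ∑ n ∈ Ico A B, (Sf f (n + 1) - Sf f n) / Real.log ((n : ℝ) + 1) := by
    have h1 : bx (N : ℝ) ω i = (Ico (A + 1) (B + 1)).filter Nat.Prime := by
      ext p
      simp only [bx, Finset.mem_filter, Finset.mem_range, Finset.mem_Ico]
      rw [← hA, ← hB]
      constructor
      · rintro ⟨h1, h2, h3⟩
        exact ⟨⟨Nat.ceil_le.mpr h3, h1⟩, h2⟩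
      · rintro ⟨⟨h3, h1⟩, h2⟩
        exact ⟨h1, h2, Nat.ceil_le.mp h3⟩
    rw [h1, Finset.sum_filter, ← Finset.sum_Ico_add' (fun p => if p.Prime then gf f p else 0) A B 1]
    refine Finset.sum_congr rfl fun n hn => ?_
    rw [Sf_succ_RM]
    have hn' := Finset.mem_Ico.mp hn
    split_ifs with h
    · have : Real.log ((n : ℝ) + 1) ≠ 0 := by
        apply ne_of_gt
        apply Real.log_pos
        have : (2 : ℝ) ≤ n := by exact_mod_cast hA2n.trans hn'.1
        linarith
      field_simp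
    · simp
  have hT : ∀ n : ℕ, A ≤ n → n ≤ B → |Sf f n - Real.log n| ≤ ε / 8 * Real.log n := by
    intro n hn1 hn2
    have hn1' : (A : ℝ) ≤ n := by exact_mod_cast hn1
    have hn2' : (n : ℝ) ≤ B := by exact_mod_cast hn2
    have hn0 : (0 : ℝ) < n := by linarith
    apply hS n
    · -- lower bound
      have h1 : Real.log a / 2 ≤ Real.log n := by
        have h2 : Real.log a / 2 = Real.log (√a) := by rw [Real.log_sqrt (by linarith)]
        rw [h2]
        apply Real.log_le_log (Real.sqrt_pos.mpr (by linarith))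
        have h3 : √a ≤ a - 1 := by
          rw [Real.sqrt_le_left (by linarith)]
          nlinarith
        linarith
      have h2 : (j0 : ℝ) * ω / 2 * Real.log N ≤ Real.log a / 2 := by
        rw [hla]
        have : (j0 : ℝ) * ω * Real.log N ≤ (i : ℝ) * ω * Real.log N := by gcongr
        linarith
      exact h2.trans h1
    · have h1 : Real.log n ≤ Real.log b := Real.log_le_log hn0 (by linarith)
      refine h1.trans ?_
      rw [hlb]
      have : (i : ℝ) + 1 ≤ Nm + 2 := by linarith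
      gcongr
  have hmain := main_RM (Sf f) A B hA2n hAB (ε / 8) (by positivity) hT
  rw [← hbox] at hmain
  set Λ := Real.log (Real.log B) - Real.log (Real.log A) with hΛ
  -- comparison of the main term
  have hla0 : 0 < Real.log a := Real.log_pos (by linarith)
  have hlb0 : 0 < Real.log b := Real.log_pos (by linarith)
  have hgm : gm i = Real.log (Real.log b) - Real.log (Real.log a) := by
    rw [gm, ← Real.log_div hlb0.ne' hla0.ne', hla, hlb]
    congr 1
    field_simp
  have hA0 : 0 < Real.log (A : ℝ) := Real.log_pos (by linarith)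
  have hB0 : 0 < Real.log (B : ℝ) := Real.log_pos (by linarith)
  have ha1 : 0 < Real.log (a - 1) := Real.log_pos (by linarith)
  have hb1 : 0 < Real.log (b - 1) := Real.log_pos (by linarith)
  have u1 : Real.log (Real.log B) ≤ Real.log (Real.log b) :=
    Real.log_le_log hB0 (Real.log_le_log (by linarith) hB2.le)
  have u2 : Real.log (Real.log (a - 1)) ≤ Real.log (Real.log A) :=
    Real.log_le_log ha1 (Real.log_le_log (by linarith) hA1)
  have u3 : Real.log (Real.log A) ≤ Real.log (Real.log a) :=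
    Real.log_le_log hA0 (Real.log_le_log (by linarith) hA2.le)
  have u4 : Real.log (Real.log (b - 1)) ≤ Real.log (Real.log B) :=
    Real.log_le_log hb1 (Real.log_le_log (by linarith) hB1)
  have u5 := loglog_RM a ha4
  have u6 := loglog_RM b (ha4.trans hab)
  have u7 : 1 / (b - 1) ≤ 1 / (a - 1) := one_div_le_one_div_of_le (by linarith) (by linarith)
  have hgm2 : gm i ≤ 1 := by
    rw [gm]
    have h1 : ((i : ℝ) + 1) / i ≤ 2 := by
      rw [div_le_iff₀ (by linarith)]; linarith
    have h2 := Real.log_le_sub_one_of_pos (show (0 : ℝ) < ((i : ℝ) + 1) / i by positivity)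
    linarith
  have hal : 1 / (a - 1) ≤ 1 / 3 := one_div_le_one_div_of_le (by norm_num) (by linarith)
  have hΛ2 : Λ ≤ 2 := by linarith
  have hΛd : |Λ - gm i| ≤ 1 / (a - 1) := by
    rw [abs_le]
    constructor <;> linarith
  have hAa : 1 / (A : ℝ) ≤ 1 / (a - 1) := one_div_le_one_div_of_le (by linarith) hA1
  have hA0' : 0 ≤ 1 / (A : ℝ) := by positivity
  have hεa : 1 / (a - 1) ≤ ε / 6 := by
    have h1 : 6 / ε ≤ a - 1 := by linarith
    have h2 := one_div_le_one_div_of_le (show 0 < 6 / ε by positivity) h1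
    rwa [one_div_div] at h2
  calc |∑ p ∈ bx (N : ℝ) ω i, gf f p - gm i|
      = |(∑ p ∈ bx (N : ℝ) ω i, gf f p - Λ) + (Λ - gm i)| := by ring_nf
    _ ≤ |∑ p ∈ bx (N : ℝ) ω i, gf f p - Λ| + |Λ - gm i| := abs_add_le _ _
    _ ≤ (ε / 8 * (2 + Λ) + 1 / (A : ℝ) * Λ) + 1 / (a - 1) := add_le_add hmain hΛd
    _ ≤ (ε / 8 * (2 + 2) + 1 / (A : ℝ) * 2) + 1 / (a - 1) := by gcongr
    _ ≤ ε := by linarith

end Pool.Agent.Helper13.UP
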